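import Mathlib
import Pool.Graph.R_seed8.H984R2.TV
import Pool.Graph.R_pool_sql_team_seeded_f0cf7b00.Results.MP_82263f_pr.PottsCensoring
import Pool.Agent.H69.Potts.GE

/-!
# The censoring inequality for the Potts model fails at every temperature

For every `q ≥ 3` and every `ε > 0` there is one finite connected bipartite graph on which, for every
inverse temperature `β` with `|β| ≥ ε`, the censoring inequality for the heat-bath dynamics of the
`q`-state Potts model started from the all-green configuration fails, already for the omission of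
a single update.  At `β = 0` it holds for
every graph.
-/

set_option autoImplicit false

namespace Pool.Agent.Results.MP_82263f_pr.EveryTemperature

open Finset

/-- Total variation distance: the largest value of `|μ(A) - ν(A)|` over all sets `A` of
configurations. -/
noncomputable def tv {Ω : Type} [Fintype Ω] (μ ν : Ω → ℝ) : ℝ :=
  ⨆ A : Finset Ω, |∑ a ∈ A, μ a - ∑ a ∈ A, ν a|

section General

variable {V : Type} [Fintype V] [DecidableEq V] {q : ℕ}

open Classical in
/-- The number of edges of `G` whose two ends have the same colour: half the number of ordered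
pairs of adjacent vertices of the same colour. -/
noncomputable def mono (G : SimpleGraph V) (σ : V → Fin q) : ℝ :=
  (∑ a, ∑ b, if G.Adj a b ∧ σ a = σ b then (1 : ℝ) else 0) / 2

/-- The unnormalised Potts weight `exp (β #{monochromatic edges})`. -/
noncomputable def weight (G : SimpleGraph V) (β : ℝ) (σ : V → Fin q) : ℝ :=
  Real.exp (β * mono G σ)

/-- The Potts measure. -/
noncomputable def potts (G : SimpleGraph V) (β : ℝ) (σ : V → Fin q) : ℝ :=
  weight G β σ / ∑ τ : V → Fin q, weight G β τ

open Classical in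
/-- The heat-bath kernel at the site `i`: all spins off `i` are kept, and the spin at `i` is
resampled from its conditional law under the Potts measure given the others. -/
noncomputable def heatBath (G : SimpleGraph V) (β : ℝ) (i : V) (σ τ : V → Fin q) : ℝ :=
  if ∀ j, j ≠ i → τ j = σ j then
    potts G β τ / ∑ c : Fin q, potts G β (Function.update σ i c)
  else 0

/-- The law `μ P_i` after one update at the site `i`. -/
noncomputable def step (G : SimpleGraph V) (β : ℝ) (μ : (V → Fin q) → ℝ) (i : V) :
    (V → Fin q) → ℝ :=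
  fun τ => ∑ σ, μ σ * heatBath G β i σ τ

open Classical in
/-- The point mass at the configuration which is equal to `g` everywhere. -/
noncomputable def allGreen (V : Type) (g : Fin q) : (V → Fin q) → ℝ :=
  fun σ => if σ = (fun _ => g) then 1 else 0

/-- The law `δ_g P_{v₁} P_{v₂} ⋯ P_{v_T}` of the heat-bath dynamics started from all green, after
the updates at the sites of the list `v`. -/
noncomputable def law (G : SimpleGraph V) (β : ℝ) (g : Fin q) (v : List V) :
    (V → Fin q) → ℝ :=
  v.foldl (step G β) (allGreen V g)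

theorem weight_pos (G : SimpleGraph V) (β : ℝ) (σ : V → Fin q) : 0 < weight G β σ :=
  Real.exp_pos _

theorem Z_pos (G : SimpleGraph V) (β : ℝ) (σ : V → Fin q) :
    0 < ∑ τ : V → Fin q, weight G β τ :=
  Finset.sum_pos (fun τ _ => weight_pos G β τ) ⟨σ, Finset.mem_univ σ⟩

open Pool.Agent.H69.Potts

theorem heatBath_eq (G : SimpleGraph V) (β : ℝ) (i : V) (σ τ : V → Fin q) :
    heatBath G β i σ τ = hb (weight G β) i σ τ := by
  unfold heatBath hb
  have hZ := (Z_pos G β σ).ne'
  split_ifs
  · unfold potts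
    rw [← Finset.sum_div, div_div_div_cancel_right₀ hZ]
  · rfl

theorem step_eq (G : SimpleGraph V) (β : ℝ) (μ : (V → Fin q) → ℝ) (i : V) :
    step G β μ i = Matrix.vecMul μ (hb (weight G β) i) := by
  funext τ
  unfold step Matrix.vecMul dotProduct
  simp_rw [heatBath_eq]

theorem foldl_eq (G : SimpleGraph V) (β : ℝ) (v : List V) : ∀ μ : (V → Fin q) → ℝ,
    v.foldl (step G β) μ = Matrix.vecMul μ (sweep (weight G β) v) := by
  induction v with
  | nil =>
    intro μ
    simp [sweep]
  | cons i v ih =>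
    intro μ
    have h0 : sweep (weight (q := q) G β) (i :: v) =
      hb (weight G β) i * sweep (weight G β) v := by simp [sweep]
    rw [List.foldl_cons, ih, step_eq, h0, Matrix.vecMul_vecMul]

theorem law_eq (G : SimpleGraph V) (β : ℝ) (g : Fin q) (v : List V) :
    law G β g v = Matrix.vecMul (allGreen V g) (sweep (weight G β) v) :=
  foldl_eq G β v _

theorem law_sum (G : SimpleGraph V) (β : ℝ) (g : Fin q) (v : List V) :
    (∑ τ : V → Fin q, law G β g v τ) = 1 := by
  rw [law_eq]
  unfold Matrix.vecMul dotProduct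
  rw [Finset.sum_comm]
  simp_rw [← Finset.mul_sum, sweep_row (weight_pos G β), mul_one]
  rw [Finset.sum_eq_single (fun _ => g)]
  · simp [allGreen]
  · intro σ _ h
    simp [allGreen, h]
  · intro h
    exact absurd (Finset.mem_univ _) h

theorem potts_sum (G : SimpleGraph V) (β : ℝ) (g : Fin q) :
    (∑ τ : V → Fin q, potts G β τ) = 1 := by
  unfold potts
  rw [← Finset.sum_div]
  exact div_self (Z_pos G β fun _ => g).ne'

/-- the distance to equilibrium as half an `ℓ¹` norm -/
theorem tv_law (G : SimpleGraph V) (β : ℝ) (g : Fin q) (v : List V) :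
    tv (law G β g v) (potts G β) =
      (∑ σ, |Matrix.vecMul (allGreen V g) (sweep (weight G β) v) σ -
        weight G β σ / ∑ σ' : V → Fin q, weight G β σ'|) / 2 := by
  rw [← law_eq]
  exact Pool.Agent.H984R2.tv_eq _ _ (by rw [law_sum, potts_sum _ _ g])

/-! ### the distance does not depend on the colour -/

theorem mono_perm (G : SimpleGraph V) (π : Equiv.Perm (Fin q)) (σ : V → Fin q) :
    mono G (fun i => π (σ i)) = mono G σ := by
  unfold mono
  congr 1
  refine Finset.sum_congr rfl fun a _ => Finset.sum_congr rfl fun b _ => ?_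
  by_cases h : G.Adj a b ∧ σ a = σ b
  · rw [if_pos h, if_pos ⟨h.1, congrArg π h.2⟩]
  · rw [if_neg h, if_neg fun h' => h ⟨h'.1, π.injective h'.2⟩]

theorem weight_perm (G : SimpleGraph V) (β : ℝ) (π : Equiv.Perm (Fin q)) (σ : V → Fin q) :
    weight G β (fun i => π (σ i)) = weight G β σ := by
  unfold weight
  rw [mono_perm]

theorem update_perm (π : Equiv.Perm (Fin q)) (σ : V → Fin q) (i : V) (c : Fin q) :
    (fun j => π (Function.update σ i c j)) = Function.update (fun j => π (σ j)) i (π c) := by
  funext j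
  by_cases hj : j = i
  · subst hj
    simp
  · rw [Function.update_of_ne hj, Function.update_of_ne hj]

theorem step_perm (G : SimpleGraph V) (β : ℝ) (π : Equiv.Perm (Fin q))
    (μ : (V → Fin q) → ℝ) (i : V) (σ : V → Fin q) :
    step G β μ i (fun j => π (σ j)) = step G β (fun ρ => μ (fun j => π (ρ j))) i σ := by
  rw [step_eq, step_eq, vecMul_hb, vecMul_hb, weight_perm]
  have h1 : ∑ c, μ (Function.update (fun j => π (σ j)) i c) =
      ∑ c, μ (fun j => π (Function.update σ i c j)) := by
    rw [← Equiv.sum_comp π]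
    refine Finset.sum_congr rfl fun c _ => ?_
    rw [update_perm]
  have h2 : ∑ c, weight G β (Function.update (fun j => π (σ j)) i c) =
      ∑ c, weight G β (Function.update σ i c) := by
    rw [← Equiv.sum_comp π]
    refine Finset.sum_congr rfl fun c _ => ?_
    rw [← update_perm, weight_perm]
  rw [h1, h2]

theorem foldl_perm (G : SimpleGraph V) (β : ℝ) (π : Equiv.Perm (Fin q)) (v : List V) :
    ∀ (μ : (V → Fin q) → ℝ) (σ : V → Fin q), v.foldl (step G β) μ (fun j => π (σ j)) =
      v.foldl (step G β) (fun ρ => μ (fun j => π (ρ j))) σ := by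
  induction v with
  | nil =>
    intro μ σ
    rfl
  | cons i v ih =>
    intro μ σ
    have h1 : (fun ρ => step G β μ i (fun j => π (ρ j))) =
        step G β (fun ρ => μ (fun j => π (ρ j))) i := funext fun ρ => step_perm G β π μ i ρ
    rw [List.foldl_cons, List.foldl_cons, ih, h1]

theorem law_perm (G : SimpleGraph V) (β : ℝ) (π : Equiv.Perm (Fin q)) (g : Fin q) (v : List V)
    (σ : V → Fin q) : law G β (π g) v (fun j => π (σ j)) = law G β g v σ := by
  have h1 : (fun ρ : V → Fin q => allGreen V (π g) (fun j => π (ρ j))) = allGreen V g := by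
    funext ρ
    unfold allGreen
    have : (fun j => π (ρ j)) = (fun _ => π g) ↔ ρ = fun _ => g := by
      constructor
      · intro h
        funext j
        exact π.injective (congrFun h j)
      · rintro rfl
        rfl
    by_cases h : ρ = fun _ => g
    · rw [if_pos (this.2 h), if_pos h]
    · rw [if_neg fun h' => h (this.1 h'), if_neg h]
  unfold law
  rw [foldl_perm, h1]

theorem tv_perm (G : SimpleGraph V) (β : ℝ) (π : Equiv.Perm (Fin q)) (g : Fin q) (v : List V) :
    tv (law G β (π g) v) (potts G β) = tv (law G β g v) (potts G β) := by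
  rw [tv_law, tv_law, ← law_eq, ← law_eq]
  congr 1
  rw [← (Equiv.arrowCongr (Equiv.refl V) π).sum_comp]
  refine Finset.sum_congr rfl fun σ _ => ?_
  have h : (Equiv.arrowCongr (Equiv.refl V) π) σ = fun j => π (σ j) := rfl
  rw [h, law_perm, weight_perm]

theorem tv_colour (G : SimpleGraph V) (β : ℝ) (g g' : Fin q) (v : List V) :
    tv (law G β g v) (potts G β) = tv (law G β g' v) (potts G β) := by
  have := tv_perm G β (Equiv.swap g g') g' v
  rwa [Equiv.swap_apply_right] at this

/-- At infinite temperature the censoring inequality holds. -/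
theorem censoring_zero (G : SimpleGraph V) (g : Fin q) {v w : List V} (h : w.Sublist v) :
    tv (law G 0 g v) (potts G 0) ≤ tv (law G 0 g w) (potts G 0) := by
  rw [tv_law, tv_law]
  have hW : (weight G 0 : (V → Fin q) → ℝ) = fun _ => 1 := by
    funext σ
    unfold weight
    rw [zero_mul, Real.exp_zero]
  rw [hW]
  obtain ⟨u, hu⟩ := sweep_sublist_one (Q := Fin q) h
  have h1 : ∀ σ : V → Fin q, (0 : ℝ) < (fun _ => (1 : ℝ)) σ := fun _ => one_pos
  set N : ℝ := ∑ _σ' : V → Fin q, (1 : ℝ) with hN
  have h2 : Matrix.vecMul (fun _ : V → Fin q => (1 : ℝ) / N) (sweep (fun _ => 1) u) =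
      fun _ => 1 / N := by
    have h3 := stationary h1 u
    have h4 : (fun _ : V → Fin q => (1 : ℝ) / N) = (1 / N) • fun _ : V → Fin q => (1 : ℝ) := by
      funext σ
      simp
    rw [h4, Matrix.smul_vecMul, h3]
  have h5 := contract h1 (fun σ => Matrix.vecMul (allGreen V g) (sweep (fun _ => 1) w) σ - 1 / N) u
  have h6 : Matrix.vecMul (fun σ => Matrix.vecMul (allGreen V g) (sweep (fun _ => 1) w) σ - 1 / N)
      (sweep (fun _ => 1) u) = fun τ =>
        Matrix.vecMul (allGreen V g) (sweep (fun _ => 1) v) τ - 1 / N := by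
    have h7 : (fun σ => Matrix.vecMul (allGreen V g) (sweep (fun _ => 1) w) σ - 1 / N) =
        Matrix.vecMul (allGreen V g) (sweep (fun _ => 1) w) - fun _ : V → Fin q => 1 / N := rfl
    rw [h7, Matrix.sub_vecMul, h2, Matrix.vecMul_vecMul, ← hu]
    rfl
  rw [h6] at h5
  linarith

end General

section Gadget

open Pool.Agent.H69.Potts

variable {n q : ℕ}

theorem mono_gadget (G : SimpleGraph (Fin n)) [DecidableRel G.Adj] (M : ℕ)
    (σ : Fin n → Fin q) (τ : Ed G × Fin M → Fin q) :
    mono (gadget G M) (Sum.elim σ τ) = ∑ t, ((if σ t.1.1.1 = τ t then (1 : ℝ) else 0) +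
      (if σ t.1.1.2 = τ t then 1 else 0)) := by
  classical
  unfold mono
  rw [Fintype.sum_sum_type]
  simp_rw [Fintype.sum_sum_type]
  have h1 : ∀ i j : Fin n, (if (gadget G M).Adj (Sum.inl i) (Sum.inl j) ∧
      (Sum.elim σ τ (Sum.inl i) : Fin q) = Sum.elim σ τ (Sum.inl j) then (1 : ℝ) else 0) = 0 := by
    intro i j
    rw [if_neg]
    rintro ⟨h, -⟩
    exact h
  have h2 : ∀ t s : Ed G × Fin M, (if (gadget G M).Adj (Sum.inr t) (Sum.inr s) ∧
      (Sum.elim σ τ (Sum.inr t) : Fin q) = Sum.elim σ τ (Sum.inr s) then (1 : ℝ) else 0) = 0 := by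
    intro i j
    rw [if_neg]
    rintro ⟨h, -⟩
    exact h
  have h3 : ∀ t : Ed G × Fin M, ∑ i : Fin n, (if (gadget G M).Adj (Sum.inr t) (Sum.inl i) ∧
      (Sum.elim σ τ (Sum.inr t) : Fin q) = Sum.elim σ τ (Sum.inl i) then (1 : ℝ) else 0) =
      (if σ t.1.1.1 = τ t then (1 : ℝ) else 0) + (if σ t.1.1.2 = τ t then 1 else 0) := by
    intro t
    rw [← sum_ind_pair (ne_of_lt t.1.2.1) (fun i => σ i = τ t)]
    refine Finset.sum_congr rfl fun i _ => ?_
    have : ((gadget G M).Adj (Sum.inr t) (Sum.inl i) ∧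
      (Sum.elim σ τ (Sum.inr t) : Fin q) = Sum.elim σ τ (Sum.inl i)) ↔
      ((i = t.1.1.1 ∨ i = t.1.1.2) ∧ σ i = τ t) := by
      refine and_congr Iff.rfl ?_
      rw [Sum.elim_inl, Sum.elim_inr, eq_comm]
    simp only [this]
  have h4 : ∀ t : Ed G × Fin M, ∑ i : Fin n, (if (gadget G M).Adj (Sum.inl i) (Sum.inr t) ∧
      (Sum.elim σ τ (Sum.inl i) : Fin q) = Sum.elim σ τ (Sum.inr t) then (1 : ℝ) else 0) =
      (if σ t.1.1.1 = τ t then (1 : ℝ) else 0) + (if σ t.1.1.2 = τ t then 1 else 0) := by
    intro t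
    rw [← sum_ind_pair (ne_of_lt t.1.2.1) (fun i => σ i = τ t)]
    refine Finset.sum_congr rfl fun i _ => ?_
    have : ((gadget G M).Adj (Sum.inl i) (Sum.inr t) ∧
      (Sum.elim σ τ (Sum.inl i) : Fin q) = Sum.elim σ τ (Sum.inr t)) ↔
      ((i = t.1.1.1 ∨ i = t.1.1.2) ∧ σ i = τ t) := by
      refine and_congr Iff.rfl ?_
      rw [Sum.elim_inl, Sum.elim_inr]
    simp only [this]
  simp_rw [h1, h2, Finset.sum_const_zero, zero_add, add_zero]
  rw [Finset.sum_comm]
  simp_rw [h3, h4]
  ring

theorem weight_gadget (G : SimpleGraph (Fin n)) [DecidableRel G.Adj] (M : ℕ) (β : ℝ)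
    (σ : Fin n → Fin q) (τ : Ed G × Fin M → Fin q) :
    weight (gadget G M) β (Sum.elim σ τ) =
      ∏ t, ((if σ t.1.1.1 = τ t then Real.exp β else 1) *
        (if σ t.1.1.2 = τ t then Real.exp β else 1)) := by
  unfold weight
  rw [mono_gadget, Finset.mul_sum, Real.exp_sum]
  refine Finset.prod_congr rfl fun t _ => ?_
  rw [mul_add, Real.exp_add]
  congr 1
  · split_ifs
    · rw [mul_one]
    · rw [mul_zero, Real.exp_zero]
  · split_ifs
    · rw [mul_one]
    · rw [mul_zero, Real.exp_zero]

/-- The configurations of the middle vertices summed out: the Potts weight of `G` at another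
inverse temperature. -/
theorem marg_gadget (G : SimpleGraph (Fin n)) [DecidableRel G.Adj] (M : ℕ) (β : ℝ) (B r : ℝ)
    (hB : B = 2 * Real.exp β + q - 2) (hr : B + (Real.exp β - 1) ^ 2 = B * r) (hr0 : 0 < r)
    (σ : Fin n → Fin q) :
    marg (weight (gadget G M) β) σ = B ^ (Fintype.card (Ed G × Fin M)) *
      PottsCensoring.weight G (Real.log (r ^ M)) σ := by
  classical
  unfold marg
  simp_rw [weight_gadget]
  rw [sum_middle G M (Real.exp β) σ B r hB hr]
  congr 1
  unfold PottsCensoring.weight PottsCensoring.mono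
  rw [Finset.card_filter, Nat.cast_sum, Finset.mul_sum, Real.exp_sum]
  refine Finset.prod_congr rfl fun p _ => ?_
  split_ifs
  · rw [Nat.cast_one, mul_one, Real.exp_log (pow_pos hr0 M)]
  · rw [Nat.cast_zero, mul_zero, Real.exp_zero]

end Gadget

section Single

/-- a proper sublist is contained in the list with one entry removed -/
theorem exists_eraseIdx {V : Type} {v w : List V} (h : w.Sublist v) (hne : w ≠ v) :
    ∃ k < v.length, w.Sublist (v.eraseIdx k) := by
  induction h with
  | slnil => exact absurd rfl hne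
  | cons a h _ => exact ⟨0, by simp, by simpa using h⟩
  | cons_cons a h ih =>
    obtain ⟨k, hk, hs⟩ := ih fun h' => hne (by rw [h'])
    exact ⟨k + 1, by simpa using hk, by simpa using hs⟩

/-- if skipping several updates helps, then skipping one update of another sequence helps -/
theorem exists_single {V : Type} (f : List V → ℝ) : ∀ (n : ℕ) (v w : List V), v.length = n →
    w.Sublist v → f w < f v → ∃ (u : List V) (k : ℕ), k < u.length ∧ f (u.eraseIdx k) < f u := by
  intro n
  induction n with
  | zero =>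
    intro v w hv hs hf
    rw [List.length_eq_zero_iff] at hv
    subst hv
    rw [List.sublist_nil.1 hs] at hf
    exact absurd hf (lt_irrefl _)
  | succ n ih =>
    intro v w hv hs hf
    obtain ⟨k, hk, hs'⟩ := exists_eraseIdx hs (by
      rintro rfl
      exact lt_irrefl _ hf)
    by_cases h : f (v.eraseIdx k) < f v
    · exact ⟨v, k, hk, h⟩
    · refine ih (v.eraseIdx k) w ?_ hs' (lt_of_lt_of_le hf (not_lt.1 h))
      rw [List.length_eraseIdx_of_lt hk, hv, Nat.add_sub_cancel]

end Single

section FivePoints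

open Pool.Agent.H69.Potts

variable {n q : ℕ}

theorem pc_step (G : SimpleGraph (Fin n)) (β : ℝ) (μ : (Fin n → Fin q) → ℝ) (i : Fin n) :
    PottsCensoring.step G β μ i = Matrix.vecMul μ (hb (PottsCensoring.weight G β) i) := by
  funext τ
  rw [PottsCensoring.step_apply, vecMul_hb]

theorem pc_foldl (G : SimpleGraph (Fin n)) (β : ℝ) (v : List (Fin n)) :
    ∀ μ : (Fin n → Fin q) → ℝ, v.foldl (PottsCensoring.step G β) μ =
      Matrix.vecMul μ (sweep (PottsCensoring.weight G β) v) := by
  induction v with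
  | nil =>
    intro μ
    simp [sweep]
  | cons i v ih =>
    intro μ
    have h0 : sweep (PottsCensoring.weight (q := q) G β) (i :: v) =
      hb (PottsCensoring.weight G β) i * sweep (PottsCensoring.weight G β) v := by simp [sweep]
    rw [List.foldl_cons, ih, pc_step, h0, Matrix.vecMul_vecMul]

theorem pc_tv (G : SimpleGraph (Fin n)) (β : ℝ) (g : Fin q) (v : List (Fin n)) :
    PottsCensoring.tv (PottsCensoring.law G β g v) (PottsCensoring.potts G β) =
      (∑ σ, |Matrix.vecMul (allGreen (Fin n) g) (sweep (PottsCensoring.weight G β) v) σ -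
        PottsCensoring.weight G β σ /
          ∑ σ' : Fin n → Fin q, PottsCensoring.weight G β σ'|) / 2 := by
  have h2 : PottsCensoring.allGreen g = allGreen (Fin n) g := by
    funext σ
    unfold PottsCensoring.allGreen allGreen
    by_cases h : σ = fun _ => g
    · rw [if_pos h, if_pos h]
    · rw [if_neg h, if_neg h]
  have h1 : Matrix.vecMul (allGreen (Fin n) g) (sweep (PottsCensoring.weight G β) v) =
      PottsCensoring.law G β g v := by
    rw [← h2]
    exact (pc_foldl G β v _).symm
  rw [h1]
  exact Pool.Agent.H984R2.tv_eq _ _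
    (by rw [PottsCensoring.law_sum, PottsCensoring.potts_sum _ _ g])

theorem marg_allGreen {V T : Type} [Fintype V] [DecidableEq V] [Fintype T] [DecidableEq T]
    (g : Fin q) : marg (allGreen (V ⊕ T) g) = allGreen V g := by
  classical
  funext σ
  unfold marg
  rw [Finset.sum_eq_single (fun _ => g)]
  · unfold allGreen
    have : (Sum.elim σ (fun _ => g) : V ⊕ T → Fin q) = (fun _ => g) ↔ σ = fun _ => g := by
      constructor
      · intro h
        funext i
        exact congrFun h (Sum.inl i)
      · rintro rfl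
        funext i
        rcases i with i | i <;> rfl
    by_cases h : σ = fun _ => g
    · rw [if_pos (this.2 h), if_pos h]
    · rw [if_neg fun h' => h (this.1 h'), if_neg h]
  · intro τ _ hτ
    unfold allGreen
    rw [if_neg]
    intro h
    refine hτ (funext fun t => ?_)
    exact congrFun h (Sum.inr t)
  · intro h
    exact absurd (Finset.mem_univ _) h

end FivePoints

section Effective

/-- the two-path coupling is uniformly attractive away from infinite temperature -/
theorem ratio_lower {q : ℕ} (hq : 3 ≤ q) {ε β : ℝ} (hε : 0 < ε) (hβ : ε ≤ |β|) :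
    (1 - Real.exp (-ε)) ^ 2 / q * (2 * Real.exp β + q - 2) ≤ (Real.exp β - 1) ^ 2 := by
  have hq3 : (3 : ℝ) ≤ q := by exact_mod_cast hq
  have hq0 : (0 : ℝ) < q := by linarith
  set z := Real.exp (-ε) with hz
  have hz0 : 0 < z := Real.exp_pos _
  have hz1 : z < 1 := by
    rw [hz, ← Real.exp_zero]
    exact Real.exp_lt_exp.2 (by linarith)
  rw [div_mul_eq_mul_div, div_le_iff₀ hq0]
  set x := Real.exp β with hx
  have hx0 : 0 < x := Real.exp_pos _
  rcases le_abs.1 hβ with h | h
  · -- ferromagnetic
    have h1 : 1 ≤ x * z := by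
      rw [hx, hz, ← Real.exp_add]
      exact Real.one_le_exp (by linarith)
    have hx1 : 1 < x := by nlinarith
    have h2 : x * (1 - z) ≤ x - 1 := by nlinarith
    have h3 : 0 ≤ x * (1 - z) := mul_nonneg hx0.le (by linarith)
    have h4 : (x * (1 - z)) ^ 2 ≤ (x - 1) ^ 2 := pow_le_pow_left₀ h3 h2 2
    have h5 : x * (1 - z) ^ 2 ≤ (x * (1 - z)) ^ 2 := by
      have : 0 ≤ (1 - z) ^ 2 * (x * (x - 1)) :=
        mul_nonneg (sq_nonneg _) (mul_nonneg hx0.le (by linarith))
      nlinarith
    have h6 : 2 * x + q - 2 ≤ q * x := by nlinarith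
    calc (1 - z) ^ 2 * (2 * x + q - 2) ≤ (1 - z) ^ 2 * (q * x) :=
          mul_le_mul_of_nonneg_left h6 (sq_nonneg _)
      _ = (x * (1 - z) ^ 2) * q := by ring
      _ ≤ (x - 1) ^ 2 * q := mul_le_mul_of_nonneg_right (h5.trans h4) hq0.le
  · -- antiferromagnetic
    have h1 : x ≤ z := by
      rw [hx, hz]
      exact Real.exp_le_exp.2 (by linarith)
    have h4 : (1 - z) ^ 2 ≤ (1 - x) ^ 2 := pow_le_pow_left₀ (by linarith) (by linarith) 2
    have h6 : 2 * x + q - 2 ≤ q := by linarith
    calc (1 - z) ^ 2 * (2 * x + q - 2) ≤ (1 - z) ^ 2 * q :=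
          mul_le_mul_of_nonneg_left h6 (sq_nonneg _)
      _ ≤ (1 - x) ^ 2 * q := mul_le_mul_of_nonneg_right h4 hq0.le
      _ = (x - 1) ^ 2 * q := by ring

end Effective

open Pool.Agent.H69.Potts in
theorem gadget_connected {M : ℕ} (hM : 0 < M) : (gadget PottsCensoring.G5 M).Connected := by
  have h0 : ∀ i : Fin 5, (gadget PottsCensoring.G5 M).Reachable (Sum.inl 0) (Sum.inl i) := by
    intro i
    rcases eq_or_ne i 0 with rfl | hi
    · exact SimpleGraph.Reachable.refl _
    · have hadj : PottsCensoring.G5.Adj 0 i := by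
        unfold PottsCensoring.G5
        rw [SimpleGraph.fromRel_adj]
        refine ⟨hi.symm, Or.inl ?_⟩
        revert hi
        fin_cases i <;> simp
      have hlt : (0 : Fin 5) < i := Fin.pos_of_ne_zero hi
      have h1 : (gadget PottsCensoring.G5 M).Adj (Sum.inl 0)
        (Sum.inr (⟨(0, i), hlt, hadj⟩, ⟨0, hM⟩)) := Or.inl rfl
      have h2 : (gadget PottsCensoring.G5 M).Adj
        (Sum.inr (⟨(0, i), hlt, hadj⟩, ⟨0, hM⟩)) (Sum.inl i) := Or.inr rfl
      exact h1.reachable.trans h2.reachable
  have h : ∀ a, (gadget PottsCensoring.G5 M).Reachable (Sum.inl 0) a := by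
    rintro (i | t)
    · exact h0 i
    · have h1 : (gadget PottsCensoring.G5 M).Adj (Sum.inl t.1.1.1) (Sum.inr t) := Or.inl rfl
      exact (h0 _).trans h1.reachable
  have : Nonempty (Fin 5 ⊕ (Ed PottsCensoring.G5 × Fin M)) := ⟨Sum.inl 0⟩
  exact ⟨fun a b => (h a).symm.trans (h b)⟩

open Pool.Agent.H69.Potts in
/-- **Failure of the censoring inequality on one graph, for all `|β| ≥ ε`.** -/
theorem failure (q : ℕ) (hq : 3 ≤ q) (ε : ℝ) (hε : 0 < ε) :
    ∃ (V : Type) (_ : Fintype V) (_ : DecidableEq V) (G : SimpleGraph V),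
      G.Connected ∧ G.Colorable 2 ∧
      ∀ β : ℝ, ε ≤ |β| → ∃ (v : List V) (k : ℕ), k < v.length ∧ ∀ g : Fin q,
        tv (law G β g (v.eraseIdx k)) (potts G β) < tv (law G β g v) (potts G β) := by
  classical
  have hq3 : (3 : ℝ) ≤ q := by exact_mod_cast hq
  have hq0 : (0 : ℝ) < q := by linarith
  have hz1 : Real.exp (-ε) < 1 := by
    rw [← Real.exp_zero]
    exact Real.exp_lt_exp.2 (by linarith)
  have hδ : 0 < (1 - Real.exp (-ε)) ^ 2 / (q : ℝ) :=
    div_pos (pow_pos (by linarith) 2) hq0
  obtain ⟨M, hM⟩ := pow_unbounded_of_one_lt (1000 * (q : ℝ) ^ 3)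
    (show 1 < 1 + (1 - Real.exp (-ε)) ^ 2 / (q : ℝ) by linarith)
  have hM0 : 0 < M := by
    rcases Nat.eq_zero_or_pos M with h | h
    · rw [h, pow_zero] at hM
      have : (1 : ℝ) ≤ (q : ℝ) ^ 3 := one_le_pow₀ (by linarith)
      linarith
    · exact h
  refine ⟨Fin 5 ⊕ (Ed PottsCensoring.G5 × Fin M), inferInstance, inferInstance,
    gadget PottsCensoring.G5 M, gadget_connected hM0, gadget_colorable _ _, fun β hβ => ?_⟩
  set G := gadget PottsCensoring.G5 M with hG
  have hx0 : 0 < Real.exp β := Real.exp_pos β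
  obtain ⟨B, hB⟩ : ∃ B : ℝ, B = 2 * Real.exp β + q - 2 := ⟨_, rfl⟩
  have hB0 : 0 < B := by rw [hB]; linarith
  obtain ⟨r, hr⟩ : ∃ r : ℝ, r = (B + (Real.exp β - 1) ^ 2) / B := ⟨_, rfl⟩
  have hBr : B + (Real.exp β - 1) ^ 2 = B * r := by
    rw [hr]
    field_simp
  have hr1 : 1 + (1 - Real.exp (-ε)) ^ 2 / (q : ℝ) ≤ r := by
    rw [hr, le_div_iff₀ hB0]
    have := ratio_lower hq hε hβ
    rw [← hB] at this
    linarith
  have hr0 : 0 < r := by linarith
  have hx' : 1000 * (q : ℝ) ^ 3 ≤ r ^ M :=
    hM.le.trans (pow_le_pow_left₀ (by linarith) hr1 M)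
  have H : Pool.Agent.H984R2.Potts.Hyp q (r ^ M) := ⟨hq, hx'⟩
  obtain ⟨C, hC⟩ : ∃ C : ℝ, C = B ^ (Fintype.card (Ed PottsCensoring.G5 × Fin M)) := ⟨_, rfl⟩
  have hC0 : C ≠ 0 := by rw [hC]; exact (pow_pos hB0 _).ne'
  have hmarg : (marg (weight (q := q) G β)) =
      fun σ => C * PottsCensoring.weight PottsCensoring.G5 (Real.log (r ^ M)) σ := by
    funext σ
    rw [hC]
    exact marg_gadget PottsCensoring.G5 M β B r hB hBr hr0 σ
  have : Nonempty (Ed PottsCensoring.G5 × Fin M → Fin q) := ⟨fun _ => ⟨0, by omega⟩⟩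
  have hlim : ∀ (g : Fin q) (v : List (Fin 5)), v ≠ [] → Filter.Tendsto
      (fun K : ℕ => tv (law G β g (blow (Ed PottsCensoring.G5 × Fin M) K v)) (potts G β))
      Filter.atTop (nhds (PottsCensoring.tv
        (PottsCensoring.law PottsCensoring.G5 (Real.log (r ^ M)) g v)
        (PottsCensoring.potts PottsCensoring.G5 (Real.log (r ^ M))))) := by
    intro g v hv
    have h1 := tendsto_blow (weight_pos (q := q) G β)
      (allGreen (Fin 5 ⊕ (Ed PottsCensoring.G5 × Fin M)) g) v hv
    rw [hmarg, marg_allGreen, sweep_scale _ hC0] at h1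
    have h2 := h1.div_const 2
    rw [pc_tv]
    simp_rw [tv_law]
    convert h2 using 5 with σ
    rw [← Finset.mul_sum, mul_div_mul_left _ _ hC0]
  obtain ⟨g₀⟩ : Nonempty (Fin q) := ⟨⟨0, by omega⟩⟩
  obtain ⟨K, hK⟩ := ((hlim g₀ [3, 2, 3, 0, 1, 2] (by simp)).eventually_lt
    (hlim g₀ [3, 2, 3, 0, 1, 3, 2] (by simp)) (PottsCensoring.main H g₀)).exists
  obtain ⟨v, k, hk, hv⟩ := exists_single (fun v => tv (law G β g₀ v) (potts G β)) _ _ _ rfl
    (blow_sublist K (by decide)) hK
  refine ⟨v, k, hk, fun g => ?_⟩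
  rw [tv_colour G β g g₀, tv_colour G β g g₀]
  exact hv

/-- **The censoring inequality for the Potts model at every temperature.**
For every `q ≥ 3` and every `ε > 0` there is a finite connected bipartite graph `G` such that for
every inverse temperature `β` with `|β| ≥ ε` there are a sequence `v` of sites of `G` and one
update of it, at the position `k`, such that for every colour `g`, called green, the heat-bath
dynamics of the `q`-state Potts model started from the all-green configuration is strictly closer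
in total variation to the Potts measure if this one update is skipped.  At `β = 0` the censoring
inequality holds, for every `q`, every finite graph, every `v` and every subsequence `w`. -/
theorem result :
    (∀ q : ℕ, 3 ≤ q → ∀ ε : ℝ, 0 < ε →
      ∃ (V : Type) (_ : Fintype V) (_ : DecidableEq V) (G : SimpleGraph V),
        G.Connected ∧ G.Colorable 2 ∧
        ∀ β : ℝ, ε ≤ |β| → ∃ (v : List V) (k : ℕ), k < v.length ∧ ∀ g : Fin q,
          tv (law G β g (v.eraseIdx k)) (potts G β) < tv (law G β g v) (potts G β)) ∧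
    (∀ (q : ℕ) (V : Type) [Fintype V] [DecidableEq V] (G : SimpleGraph V) (v w : List V),
      w.Sublist v → ∀ g : Fin q,
        tv (law G 0 g v) (potts G 0) ≤ tv (law G 0 g w) (potts G 0)) :=
  ⟨failure, fun _ _ _ _ G _ _ h g => censoring_zero G g h⟩

end Pool.Agent.Results.MP_82263f_pr.EveryTemperature
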